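import Pool.Agent.M3.FPMart

/-!
# GMR.Rd: recorded labels for any number of known vertices (row G2B of table gm), helper21

One view, abstract: `Q t` public node (filtration), `A` hidden vertex, `B w i` (`i : ι`) known vertices, true labels
`f l t` (`l : Λ`), `f l t` = function of `(A, B on sp l, Q t)`; `sp l` = index set of the label.
INDEX `t` of `b, ys, cl, rc` = level `t+1`.
* `ZJ J t` = node with the known vertices in `J`, `ZA J t` = the same with `A`, `Z t` = all known vertices;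
* `y t l w` young: `f l` has changed since it was last recorded (end of level `t`);
* `cl t J w` closing of `J` at level `t+1`: at the stage `s = |J|` some young mass of a label containing `J`, given
  `(B on J, Q (t+1))`, is `>= al s`; then all labels containing `J` are recorded; stages `0 .. k-1` in this order;
* `rc t l w` = some closing `J ⊆ sp l` happens; `rl l t` recorded label, `utd t` = nothing is young.
Thresholds: `al s <= (al (s+1))^2`; `M3.Rd` is the case `ι = {b,c}`, `Λ = {f,g,u}`, `al 0 = al`, `al 1 = be`.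
-/

set_option autoImplicit false
set_option linter.unusedSectionVars false

namespace Pool.Agent.GMR

open Finset Pool.Agent.PWZ Pool.Agent.M3

/-- restriction to the vertices in `J` -/
def rs {ι β : Type*} (J : Finset ι) (b : ι → β) : {i // i ∈ J} → β := fun i => b i.1

theorem rs_eq {ι β : Type*} {J : Finset ι} {b c : ι → β} : rs J b = rs J c ↔ ∀ i ∈ J, b i = c i := by
  constructor
  · intro h i hi
    exact congrFun h ⟨i, hi⟩
  · intro h
    funext i
    exact h i.1 i.2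

/-- data of one view -/
structure RD (Om : Type*) [Fintype Om] (κ : ℕ → Type*) (ι Λ α β : Type*) (F : Λ → Type*) where
  P : FP Om
  Q : ∀ t, Om → κ t
  A : Om → α
  B : Om → ι → β
  sp : Λ → Finset ι
  f : ∀ l : Λ, ℕ → Om → F l
  k : ℕ
  al : ℕ → ℝ

variable {Om : Type*} [Fintype Om] {κ : ℕ → Type*} {ι Λ α β : Type*} {F : Λ → Type*}

namespace RD

noncomputable section

variable (R : RD Om κ ι Λ α β F)

/-- the node with all known vertices -/
def Z (t : ℕ) (w : Om) : (ι → β) × κ t := (R.B w, R.Q t w)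

/-- the node with the known vertices in `J` -/
def ZJ (J : Finset ι) (t : ℕ) (w : Om) : ({i // i ∈ J} → β) × κ t := (rs J (R.B w), R.Q t w)

/-- the node with the hidden vertex and the known vertices in `J` -/
def ZA (J : Finset ι) (t : ℕ) (w : Om) : α × ({i // i ∈ J} → β) × κ t := (R.A w, rs J (R.B w), R.Q t w)

/-- closing of `J` at level `t`, from the young labels `y` -/
def cq (t : ℕ) (y : Λ → Om → Prop) (J : Finset ι) (w : Om) : Prop :=
  ∃ l, J ⊆ R.sp l ∧ R.al J.card ≤ R.P.ce (R.ZJ J t) (fun v => ind (y l v)) w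

/-- young after the stages `< s` of level `t`, from the young labels `y` -/
def sts (t : ℕ) (y : Λ → Om → Prop) : ℕ → Λ → Om → Prop
  | 0 => y
  | s + 1 => fun l w => sts t y s l w ∧ ∀ J, J ⊆ R.sp l → J.card = s → ¬ R.cq t (sts t y s) J w

/-- young at the end of level `t` -/
def y : ℕ → Λ → Om → Prop
  | 0 => fun _ _ => False
  | t + 1 => R.sts (t + 1) (fun l w => y t l w ∨ R.f l (t + 1) w ≠ R.f l t w) R.k

/-- young at level `t+1` after the stages `< s` -/
def ys (t s : ℕ) : Λ → Om → Prop :=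
  R.sts (t + 1) (fun l w => R.y t l w ∨ R.f l (t + 1) w ≠ R.f l t w) s

/-- young at level `t+1` before the rules -/
def b (t : ℕ) (l : Λ) (w : Om) : Prop := R.y t l w ∨ R.f l (t + 1) w ≠ R.f l t w

/-- closing of `J` at level `t+1` -/
def cl (t : ℕ) (J : Finset ι) (w : Om) : Prop := R.cq (t + 1) (R.ys t J.card) J w

/-- the label `l` is recorded at level `t+1` -/
def rc (t : ℕ) (l : Λ) (w : Om) : Prop := ∃ J, J ⊆ R.sp l ∧ R.cl t J w

/-- up to date -/
def utd (t : ℕ) (w : Om) : Prop := ∀ l, ¬ R.y t l w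

open Classical in
/-- recorded label -/
def rl (l : Λ) : ℕ → Om → F l
  | 0, w => R.f l 0 w
  | t + 1, w => if R.rc t l w then R.f l (t + 1) w else rl l t w

/-- the records up to `t` -/
def Nl (l : Λ) (t : ℕ) (w : Om) : Fin (t + 1) → F l := fun s => R.rl l s.val w

/-- the view: known vertices, public node, records -/
def Vw (t : ℕ) (w : Om) : ((ι → β) × κ t) × (∀ l, Fin (t + 1) → F l) := (R.Z t w, fun l => R.Nl l t w)

/-- the last threshold -/
def top : ℝ := R.al (R.k - 1)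

/-- hypotheses on the view -/
structure Hyp [DecidableEq ι] : Prop where
  filt : Filt R.Q
  ff : ∀ l t, Fac (R.ZA (R.sp l) t) (R.f l t)
  /-- the known vertices are independent of each other and of the hidden vertex, given the node -/
  idp : ∀ t (I J : Finset ι) (h : Om → ℝ), Fac (R.ZA I t) h → ∀ w, R.P.p w ≠ 0 →
    R.P.ce (R.ZJ J t) h w = R.P.ce (R.ZJ (J ∩ I) t) h w
  dbl : ∀ t (h : Om → ℝ), (∀ w, 0 ≤ h w) → ∀ w, R.P.p w ≠ 0 →
    R.P.ce (R.Z (t + 1)) h w ≤ 2 * R.P.ce (R.Z t) h w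
  /-- sizes of the index sets -/
  sk : ∀ l, (R.sp l).card < R.k
  al0 : ∀ s < R.k, 0 < R.al s
  al1 : ∀ s < R.k, R.al s ≤ 1
  alq : ∀ s, s + 1 < R.k → R.al s ≤ R.al (s + 1) ^ 2

variable {R}

/-! ## the rules -/

theorem y_zero (l : Λ) (w : Om) : ¬ R.y 0 l w := fun h => h

theorem utd_zero (w : Om) : R.utd 0 w := fun l => R.y_zero l w

theorem y_succ_ys (t : ℕ) : R.y (t + 1) = R.ys t R.k := rfl

theorem ys_zero (t : ℕ) (l : Λ) (w : Om) : R.ys t 0 l w ↔ R.b t l w := Iff.rfl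

theorem ys_succ (t s : ℕ) (l : Λ) (w : Om) :
    R.ys t (s + 1) l w ↔ R.ys t s l w ∧ ∀ J, J ⊆ R.sp l → J.card = s → ¬ R.cl t J w := by
  have h1 : R.ys t (s + 1) l w ↔ R.ys t s l w ∧ ∀ J, J ⊆ R.sp l → J.card = s → ¬ R.cq (t + 1) (R.ys t s) J w :=
    Iff.rfl
  rw [h1]
  refine and_congr_right fun _ => forall_congr' fun J => forall_congr' fun _ => ?_
  constructor
  · intro h hJ
    have := h hJ
    unfold cl
    rwa [hJ]
  · intro h hJ
    have := h hJ
    unfold cl at this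
    rwa [hJ] at this

theorem ys_iff (t s : ℕ) (l : Λ) (w : Om) :
    R.ys t s l w ↔ R.b t l w ∧ ∀ J, J ⊆ R.sp l → J.card < s → ¬ R.cl t J w := by
  induction s with
  | zero =>
    rw [ys_zero]
    exact ⟨fun h => ⟨h, fun J _ h' => absurd h' (Nat.not_lt_zero _)⟩, fun h => h.1⟩
  | succ s ih =>
    rw [ys_succ, ih]
    constructor
    · rintro ⟨⟨h1, h2⟩, h3⟩
      refine ⟨h1, fun J hJ hs => ?_⟩
      rcases Nat.lt_succ_iff_lt_or_eq.1 hs with h | h
      · exact h2 J hJ h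
      · exact h3 J hJ h
    · rintro ⟨h1, h2⟩
      exact ⟨⟨h1, fun J hJ hs => h2 J hJ (Nat.lt_succ_of_lt hs)⟩, fun J hJ hs => h2 J hJ (by omega)⟩

theorem ys_b {t s : ℕ} {l : Λ} {w : Om} (h : R.ys t s l w) : R.b t l w := ((ys_iff t s l w).1 h).1

variable [DecidableEq ι]

theorem y_succ (h : R.Hyp) (t : ℕ) (l : Λ) (w : Om) : R.y (t + 1) l w ↔ R.b t l w ∧ ¬ R.rc t l w := by
  rw [y_succ_ys, ys_iff]
  refine and_congr_right fun _ => ?_
  unfold rc
  constructor
  · rintro h1 ⟨J, hJ, hc⟩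
    exact h1 J hJ (lt_of_le_of_lt (Finset.card_le_card hJ) (h.sk l)) hc
  · intro h1 J hJ _ hc
    exact h1 ⟨J, hJ, hc⟩

theorem y_ys (h : R.Hyp) {t : ℕ} {s : ℕ} (hs : s ≤ R.k) {l : Λ} {w : Om} (hy : R.y (t + 1) l w) : R.ys t s l w := by
  rw [y_succ_ys, ys_iff] at hy
  rw [ys_iff]
  exact ⟨hy.1, fun J hJ hs' => hy.2 J hJ (lt_of_lt_of_le hs' hs)⟩

/-! ## thresholds -/

theorem al_succ (h : R.Hyp) {s : ℕ} (hs : s + 1 < R.k) : R.al s ≤ R.al (s + 1) := by
  have h1 := h.alq s hs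
  have h2 := h.al0 (s + 1) hs
  have h3 := h.al1 (s + 1) hs
  nlinarith

theorem al_mono (h : R.Hyp) {s s' : ℕ} (hss : s ≤ s') (hs : s' < R.k) : R.al s ≤ R.al s' := by
  induction s', hss using Nat.le_induction with
  | base => exact le_rfl
  | succ s' _ ih => exact (ih (by omega)).trans (al_succ h hs)

theorem al_top (h : R.Hyp) {s : ℕ} (hs : s < R.k) : R.al s ≤ R.top := al_mono h (by omega) (by omega)

/-- `al s ≤ (al s')^2` for `s < s'` -/
theorem al_sq (h : R.Hyp) {s s' : ℕ} (hss : s < s') (hs : s' < R.k) : R.al s ≤ R.al s' ^ 2 := by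
  have h1 := al_mono h (s := s) (s' := s' - 1) (by omega) (by omega)
  have h2 := h.alq (s' - 1) (by omega)
  have h3 : s' - 1 + 1 = s' := by omega
  rw [h3] at h2
  exact h1.trans h2

/-! ## measurability -/

theorem Z_filt (h : R.Hyp) : Filt R.Z := by
  intro t v w hv
  unfold Z at hv ⊢
  simp only [Prod.mk.injEq] at hv ⊢
  exact ⟨hv.1, h.filt t v w hv.2⟩

theorem ZJ_filt (h : R.Hyp) (J : Finset ι) : Filt (R.ZJ J) := by
  intro t v w hv
  unfold ZJ at hv ⊢
  simp only [Prod.mk.injEq] at hv ⊢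
  exact ⟨hv.1, h.filt t v w hv.2⟩

theorem ZA_filt (h : R.Hyp) (J : Finset ι) : Filt (R.ZA J) := by
  intro t v w hv
  unfold ZA at hv ⊢
  simp only [Prod.mk.injEq] at hv ⊢
  exact ⟨hv.1, hv.2.1, h.filt t v w hv.2.2⟩

omit [DecidableEq ι] in
theorem Z_fac_ZJ (J : Finset ι) (t : ℕ) : Fac (R.Z t) (R.ZJ J t) := by
  intro v w hv
  unfold Z at hv
  unfold ZJ
  simp only [Prod.mk.injEq] at hv ⊢
  rw [hv.1]
  exact ⟨rfl, hv.2⟩

omit [DecidableEq ι] in
theorem ZJ_fac_ZJ {I J : Finset ι} (hIJ : I ⊆ J) (t : ℕ) : Fac (R.ZJ J t) (R.ZJ I t) := by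
  intro v w hv
  unfold ZJ at hv ⊢
  simp only [Prod.mk.injEq] at hv ⊢
  exact ⟨rs_eq.2 fun i hi => rs_eq.1 hv.1 i (hIJ hi), hv.2⟩

omit [DecidableEq ι] in
theorem ZA_fac_ZA {I J : Finset ι} (hIJ : I ⊆ J) (t : ℕ) : Fac (R.ZA J t) (R.ZA I t) := by
  intro v w hv
  unfold ZA at hv ⊢
  simp only [Prod.mk.injEq] at hv ⊢
  exact ⟨hv.1, rs_eq.2 fun i hi => rs_eq.1 hv.2.1 i (hIJ hi), hv.2.2⟩

omit [DecidableEq ι] in
theorem ZA_fac_ZJ {I J : Finset ι} (hIJ : I ⊆ J) (t : ℕ) : Fac (R.ZA J t) (R.ZJ I t) := by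
  intro v w hv
  unfold ZA at hv
  unfold ZJ
  simp only [Prod.mk.injEq] at hv ⊢
  exact ⟨rs_eq.2 fun i hi => rs_eq.1 hv.2.1 i (hIJ hi), hv.2.2⟩

omit [DecidableEq ι] in
theorem ZJ_fac_Q (J : Finset ι) (t : ℕ) : Fac (R.ZJ J t) (R.Q t) := by
  intro v w hv
  unfold ZJ at hv
  simp only [Prod.mk.injEq] at hv
  exact hv.2

omit [DecidableEq ι] in
theorem Z_fac_Q (t : ℕ) : Fac (R.Z t) (R.Q t) := (Z_fac_ZJ ∅ t).trans (ZJ_fac_Q ∅ t)

omit [DecidableEq ι] in
theorem ZJ_univ_fac_Z [Fintype ι] (t : ℕ) : Fac (R.ZJ univ t) (R.Z t) := by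
  intro v w hv
  unfold ZJ at hv
  unfold Z
  simp only [Prod.mk.injEq] at hv ⊢
  exact ⟨funext fun i => rs_eq.1 hv.1 i (mem_univ i), hv.2⟩

/-- functions of `(A, B on I)` see of all known vertices only those in `I` -/
theorem ce_Z [Fintype ι] (h : R.Hyp) (t : ℕ) {I : Finset ι} {g : Om → ℝ} (hg : Fac (R.ZA I t) g) {w : Om}
    (hw : R.P.p w ≠ 0) : R.P.ce (R.Z t) g w = R.P.ce (R.ZJ I t) g w := by
  rw [R.P.ce_congr_map (Z_fac_ZJ univ t) (ZJ_univ_fac_Z t) g w, h.idp t I univ g hg w hw, Finset.univ_inter]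

omit [DecidableEq ι] in
theorem cl_iff {t : ℕ} {J : Finset ι} {v w : Om} (h : R.ZJ J (t + 1) v = R.ZJ J (t + 1) w) :
    R.cl t J v ↔ R.cl t J w := by
  unfold cl cq
  refine exists_congr fun l => and_congr_right fun _ => ?_
  rw [R.P.ce_fac (R.ZJ J (t + 1)) _ v w h]

omit [DecidableEq ι] in
theorem rc_iff {t : ℕ} {l : Λ} {v w : Om} (h : R.ZJ (R.sp l) (t + 1) v = R.ZJ (R.sp l) (t + 1) w) :
    R.rc t l v ↔ R.rc t l w := by
  unfold rc
  refine exists_congr fun J => and_congr_right fun hJ => ?_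
  exact cl_iff (ZJ_fac_ZJ hJ (t + 1) v w h)

theorem y_iff (h : R.Hyp) (t : ℕ) (l : Λ) : ∀ {v w : Om}, R.ZA (R.sp l) t v = R.ZA (R.sp l) t w →
    (R.y t l v ↔ R.y t l w) := by
  induction t with
  | zero => intro v w _; exact Iff.rfl
  | succ t ih =>
    intro v w hv
    have hv' := ZA_filt h (R.sp l) t v w hv
    rw [y_succ h, y_succ h, rc_iff (ZA_fac_ZJ (Finset.Subset.refl _) (t + 1) v w hv)]
    unfold b
    rw [ih hv', h.ff l (t + 1) v w hv, h.ff l t v w hv']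

theorem b_iff (h : R.Hyp) {t : ℕ} {l : Λ} {v w : Om} (hv : R.ZA (R.sp l) (t + 1) v = R.ZA (R.sp l) (t + 1) w) :
    R.b t l v ↔ R.b t l w := by
  have hv' := ZA_filt h (R.sp l) t v w hv
  unfold b
  rw [y_iff h t l hv', h.ff l (t + 1) v w hv, h.ff l t v w hv']

theorem ys_fi (h : R.Hyp) {t s : ℕ} {l : Λ} {v w : Om} (hv : R.ZA (R.sp l) (t + 1) v = R.ZA (R.sp l) (t + 1) w) :
    R.ys t s l v ↔ R.ys t s l w := by
  rw [ys_iff, ys_iff, b_iff h hv]
  refine and_congr_right fun _ => forall_congr' fun J => forall_congr' fun hJ => forall_congr' fun _ => ?_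
  rw [cl_iff (ZA_fac_ZJ hJ (t + 1) v w hv)]

theorem y_fac (h : R.Hyp) (t : ℕ) (l : Λ) : Fac (R.ZA (R.sp l) t) (fun w => ind (R.y t l w)) :=
  Fac.ind fun _ _ e => y_iff h t l e

theorem b_fac (h : R.Hyp) (t : ℕ) (l : Λ) : Fac (R.ZA (R.sp l) (t + 1)) (fun w => ind (R.b t l w)) :=
  Fac.ind fun _ _ e => b_iff h e

/-! ## recorded labels -/

theorem rl_utd (H : R.Hyp) {t : ℕ} {l : Λ} {w : Om} (h : ¬ R.y t l w) : R.rl l t w = R.f l t w := by
  induction t with
  | zero => rfl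
  | succ t ih =>
    rw [y_succ H] at h
    unfold rl
    by_cases hc : R.rc t l w
    · rw [if_pos hc]
    · rw [if_neg hc]
      have hb : ¬ R.b t l w := fun hb => h ⟨hb, hc⟩
      unfold b at hb
      push Not at hb
      rw [ih hb.1, hb.2]

omit [DecidableEq ι] in
theorem rl_succ_of_not {t : ℕ} {l : Λ} {w : Om} (h : ¬ R.rc t l w) : R.rl l (t + 1) w = R.rl l t w := by
  rw [rl, if_neg h]

/-- a recorded label changes only at a closing at which it is young -/
theorem rl_ne (H : R.Hyp) {t : ℕ} {l : Λ} {w : Om} (h : R.rl l (t + 1) w ≠ R.rl l t w) :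
    R.rc t l w ∧ R.b t l w := by
  by_cases hc : R.rc t l w
  · refine ⟨hc, ?_⟩
    by_contra hb
    unfold b at hb
    push Not at hb
    apply h
    rw [rl, if_pos hc, rl_utd H hb.1, hb.2]
  · exact absurd (rl_succ_of_not hc) h

theorem rl_fac (h : R.Hyp) (l : Λ) (t : ℕ) : Fac (R.ZA (R.sp l) t) (R.rl l t) := by
  induction t with
  | zero => exact h.ff l 0
  | succ t ih =>
    intro v w hv
    have hv' := ZA_filt h (R.sp l) t v w hv
    have h1 : R.rc t l v ↔ R.rc t l w := rc_iff (ZA_fac_ZJ (Finset.Subset.refl _) (t + 1) v w hv)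
    unfold rl
    by_cases hc : R.rc t l w
    · rw [if_pos hc, if_pos (h1.2 hc)]
      exact h.ff l (t + 1) v w hv
    · rw [if_neg hc, if_neg (fun h' => hc (h1.1 h'))]
      exact ih v w hv'

theorem Nl_fac (h : R.Hyp) (l : Λ) (t : ℕ) : Fac (R.ZA (R.sp l) t) (R.Nl l t) := by
  intro v w hv
  funext s
  have hf := ZA_filt h (R.sp l)
  exact rl_fac h l s.val v w (hf.le (Nat.lt_succ_iff.1 s.isLt) v w hv)

/-! ## the view -/

theorem Vw_filt (h : R.Hyp) : Filt R.Vw := by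
  intro t v w hv
  unfold Vw at hv ⊢
  simp only [Prod.mk.injEq] at hv ⊢
  obtain ⟨h1, h2⟩ := hv
  refine ⟨Z_filt h t v w h1, ?_⟩
  funext l s
  exact congrFun (congrFun h2 l) ⟨s.val, by omega⟩

omit [DecidableEq ι] in
theorem Vw_fac_Z (t : ℕ) : Fac (R.Vw t) (R.Z t) := by
  intro v w hv
  unfold Vw at hv
  simp only [Prod.mk.injEq] at hv
  exact hv.1

omit [DecidableEq ι] in
theorem Vw_fac_rl (t : ℕ) (l : Λ) : Fac (R.Vw t) (R.rl l t) := by
  intro v w hv
  unfold Vw at hv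
  simp only [Prod.mk.injEq] at hv
  exact congrFun (congrFun hv.2 l) ⟨t, by omega⟩

end

end RD

end Pool.Agent.GMR
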