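import Pool.Agent.GMR.Rd
import Pool.Agent.M3.RdR

/-!
# GMR.RdR: sizes (R0)-(R3) for any number of known vertices (row G2B.2), helper21

* `y_ZJ` : after the rules the young mass of `l` given `(B on J, Q t)` is `<= al |J ∩ sp l|`;
* `utd_Z`, `utd_Z_succ`, `utd_ZJ` : not up to date;
* `sum_rec`, `cl_count` : every change is recorded at most once; `al |J| * E #closings of J <= #changes`;
* `rl_entropy` : created entropy of the records of `l` given `(B on sp l, Q)`.
-/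

set_option autoImplicit false
set_option linter.unusedSectionVars false

namespace Pool.Agent.GMR

open Finset Pool.Agent.PWZ Pool.Agent.M3

namespace RD

variable {Om : Type*} [Fintype Om] {κ : ℕ → Type*} {ι Λ α β : Type*} {F : Λ → Type*} {R : RD Om κ ι Λ α β F}

variable [DecidableEq ι]

/-! ## (R0), (R1) -/

theorem card_inter_lt (h : R.Hyp) (J : Finset ι) (l : Λ) : (J ∩ R.sp l).card < R.k :=
  lt_of_le_of_lt (Finset.card_le_card Finset.inter_subset_right) (h.sk l)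

/-- no closing of `J`: the young mass (stage `|J|`) is small -/
theorem ys_of_not_cl {t : ℕ} {J : Finset ι} {l : Λ} (hJ : J ⊆ R.sp l) {w : Om} (hc : ¬ R.cl t J w) :
    R.P.ce (R.ZJ J (t + 1)) (fun v => ind (R.ys t J.card l v)) w ≤ R.al J.card := by
  unfold cl cq at hc
  push Not at hc
  exact (hc l hJ).le

theorem y_ZJ_sub (h : R.Hyp) {J : Finset ι} (t : ℕ) {l : Λ} (hJ : J ⊆ R.sp l) {w : Om} (hw : R.P.p w ≠ 0) :
    R.P.ce (R.ZJ J t) (fun v => ind (R.y t l v)) w ≤ R.al J.card := by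
  have hk : J.card < R.k := lt_of_le_of_lt (Finset.card_le_card hJ) (h.sk l)
  cases t with
  | zero =>
    rw [R.P.ce_zero_on hw (fun v _ _ => ind_not (R.y_zero l v))]
    exact (h.al0 _ hk).le
  | succ t =>
    by_cases hc : R.cl t J w
    · rw [R.P.ce_zero_on hw (fun v _ hv => ind_not (fun hy => ?_))]
      · exact (h.al0 _ hk).le
      · exact ((y_succ h t l v).1 hy).2 ⟨J, hJ, (cl_iff hv).2 hc⟩
    · refine le_trans (R.P.ce_mono (fun v _ => ind_mono (fun hy => y_ys h hk.le hy)) w) ?_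
      exact ys_of_not_cl hJ hc

theorem y_ZJ (h : R.Hyp) (J : Finset ι) (t : ℕ) (l : Λ) {w : Om} (hw : R.P.p w ≠ 0) :
    R.P.ce (R.ZJ J t) (fun v => ind (R.y t l v)) w ≤ R.al (J ∩ R.sp l).card := by
  rw [h.idp t (R.sp l) J _ (y_fac h t l) w hw]
  exact y_ZJ_sub h t Finset.inter_subset_right hw

variable [Fintype Λ]

theorem ind_nutd (t : ℕ) (v : Om) : ind (¬ R.utd t v) ≤ ∑ l, ind (R.y t l v) := by
  have h1 : ind (¬ R.utd t v) ≤ ind (∃ l ∈ (univ : Finset Λ), R.y t l v) := ind_mono (fun hn => by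
    unfold utd at hn
    push Not at hn
    obtain ⟨l, hl⟩ := hn
    exact ⟨l, mem_univ l, hl⟩)
  exact h1.trans (FP.ind_ex_le _ _)

theorem utd_le (t : ℕ) {ν : Type*} (X : Om → ν) (w : Om) :
    R.P.ce X (fun v => ind (¬ R.utd t v)) w ≤ ∑ l, R.P.ce X (fun v => ind (R.y t l v)) w := by
  rw [← R.P.ce_sum]
  exact R.P.ce_mono (fun v _ => ind_nutd t v) w

theorem sum_le_card {c : ℝ} {g : Λ → ℝ} (hg : ∀ l, g l ≤ c) : ∑ l, g l ≤ Fintype.card Λ * c := by
  calc ∑ l, g l ≤ ∑ _l : Λ, c := Finset.sum_le_sum (fun l _ => hg l)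
    _ = Fintype.card Λ * c := by rw [Finset.sum_const, Finset.card_univ, nsmul_eq_mul]

theorem utd_ZJ (h : R.Hyp) (J : Finset ι) (hJ : J.card < R.k) (t : ℕ) {w : Om} (hw : R.P.p w ≠ 0) :
    R.P.ce (R.ZJ J t) (fun v => ind (¬ R.utd t v)) w ≤ Fintype.card Λ * R.al J.card := by
  refine (utd_le t _ w).trans (sum_le_card fun l => ?_)
  refine (y_ZJ h J t l hw).trans ?_
  exact al_mono h (Finset.card_le_card Finset.inter_subset_left) hJ

/-- for every `J` -/
theorem utd_ZJ_top (h : R.Hyp) (J : Finset ι) (t : ℕ) {w : Om} (hw : R.P.p w ≠ 0) :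
    R.P.ce (R.ZJ J t) (fun v => ind (¬ R.utd t v)) w ≤ Fintype.card Λ * R.top := by
  refine (utd_le t _ w).trans (sum_le_card fun l => ?_)
  exact (y_ZJ h J t l hw).trans (al_top h (card_inter_lt h J l))

/-- also with the hidden vertex free: the young mass given the node alone -/
theorem utd_Q (h : R.Hyp) (hk : 0 < R.k) (t : ℕ) {w : Om} (hw : R.P.p w ≠ 0) :
    R.P.ce (R.Q t) (fun v => ind (¬ R.utd t v)) w ≤ Fintype.card Λ * R.al 0 := by
  rw [← R.P.ce_tower (ZJ_fac_Q ∅ t)]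
  refine R.P.ce_le_const (fun v hv => ?_) hw
  have := utd_ZJ h ∅ (by rw [Finset.card_empty]; exact hk) t hv
  rwa [Finset.card_empty] at this

variable [Fintype ι]

theorem y_Z (h : R.Hyp) (t : ℕ) (l : Λ) {w : Om} (hw : R.P.p w ≠ 0) :
    R.P.ce (R.Z t) (fun v => ind (R.y t l v)) w ≤ R.al (R.sp l).card := by
  rw [ce_Z h t (y_fac h t l) hw]
  exact y_ZJ_sub h t (Finset.Subset.refl _) hw

theorem utd_Z (h : R.Hyp) (t : ℕ) {w : Om} (hw : R.P.p w ≠ 0) :
    R.P.ce (R.Z t) (fun v => ind (¬ R.utd t v)) w ≤ Fintype.card Λ * R.top := by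
  refine (utd_le t _ w).trans (sum_le_card fun l => ?_)
  exact (y_Z h t l hw).trans (al_top h (h.sk l))

theorem utd_Z_succ (h : R.Hyp) (t : ℕ) {w : Om} (hw : R.P.p w ≠ 0) :
    R.P.ce (R.Z (t + 1)) (fun v => ind (¬ R.utd t v)) w ≤ 2 * (Fintype.card Λ * R.top) := by
  have h1 := h.dbl t (fun v => ind (¬ R.utd t v)) (fun v => ind_nonneg _) w hw
  linarith [utd_Z h t hw]

omit [Fintype ι] [Fintype Λ]

/-! ## (R2) -/

/-- every change of `f l` is recorded at most once -/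
theorem rec_l (h : R.Hyp) (n : ℕ) (l : Λ) (w : Om) :
    ∑ t ∈ range n, ind (R.rc t l w ∧ R.b t l w) + ind (R.y n l w) ≤
      ∑ t ∈ range n, ind (R.f l (t + 1) w ≠ R.f l t w) := by
  induction n with
  | zero => simp only [Finset.range_zero, Finset.sum_empty, zero_add]; rw [ind_not (R.y_zero l w)]
  | succ n ih =>
    rw [Finset.sum_range_succ, Finset.sum_range_succ]
    have h1 : ind (R.rc n l w ∧ R.b n l w) + ind (R.y (n + 1) l w) = ind (R.b n l w) := by
      by_cases hb : R.b n l w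
      · by_cases hc : R.rc n l w
        · rw [ind_of ⟨hc, hb⟩, ind_of hb, ind_not (fun hy => ?_), add_zero]
          exact ((y_succ h n l w).1 hy).2 hc
        · rw [ind_not (fun hh => hc hh.1), ind_of hb, ind_of ((y_succ h n l w).2 ⟨hb, hc⟩), zero_add]
      · rw [ind_not (fun hh => hb hh.2), ind_not hb, ind_not (fun hy => hb ((y_succ h n l w).1 hy).1), add_zero]
    have h2 : ind (R.b n l w) ≤ ind (R.y n l w) + ind (R.f l (n + 1) w ≠ R.f l n w) := ind_or_le _ _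
    linarith

theorem sum_rec (h : R.Hyp) (n : ℕ) (l : Λ) :
    ∑ t ∈ range n, R.P.Pr (fun w => R.rc t l w ∧ R.b t l w) ≤
      ∑ t ∈ range n, R.P.Pr (fun w => R.f l (t + 1) w ≠ R.f l t w) := by
  rw [M3.RD.sum_Pr, M3.RD.sum_Pr]
  refine R.P.E_mono (fun w _ => ?_)
  linarith [rec_l h n l w, ind_nonneg (R.y n l w)]

variable [Fintype Λ]

/-- a closing pays its threshold, one level -/
theorem cl_pay (h : R.Hyp) (t : ℕ) (J : Finset ι) :
    R.al J.card * R.P.Pr (R.cl t J) ≤ ∑ l, R.P.Pr (fun w => R.rc t l w ∧ R.b t l w) := by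
  classical
  have hC : ∀ v w, R.ZJ J (t + 1) v = R.ZJ J (t + 1) w → (R.cl t J v ↔ R.cl t J w) := fun v w e => cl_iff e
  have h1 : ∀ l, J ⊆ R.sp l → R.P.E (fun w => ind (R.cl t J w) *
      R.P.ce (R.ZJ J (t + 1)) (fun v => ind (R.ys t J.card l v)) w) ≤
      R.P.Pr (fun w => R.rc t l w ∧ R.b t l w) := by
    intro l hl
    rw [M3.RD.pub_pay R.P hC]
    exact R.P.Pr_mono (fun w _ hh => ⟨⟨J, hl, hh.1⟩, ys_b hh.2⟩)
  have h2 : R.al J.card * R.P.Pr (R.cl t J) ≤ ∑ l ∈ univ.filter (fun l => J ⊆ R.sp l),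
      R.P.E (fun w => ind (R.cl t J w) * R.P.ce (R.ZJ J (t + 1)) (fun v => ind (R.ys t J.card l v)) w) := by
    unfold FP.Pr
    rw [← R.P.E_smul, ← R.P.E_sum]
    refine R.P.E_mono (fun w _ => ?_)
    have hnn : ∀ l ∈ univ.filter (fun l => J ⊆ R.sp l), 0 ≤ ind (R.cl t J w) *
        R.P.ce (R.ZJ J (t + 1)) (fun v => ind (R.ys t J.card l v)) w := fun l _ =>
      mul_nonneg (ind_nonneg _) (R.P.ce_nonneg (fun v _ => ind_nonneg _) w)
    by_cases hp : R.cl t J w
    · have hp' := hp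
      unfold cl cq at hp'
      obtain ⟨l, hl, hle⟩ := hp'
      refine le_trans ?_ (Finset.single_le_sum hnn (Finset.mem_filter.2 ⟨mem_univ l, hl⟩))
      rw [ind_of hp]
      linarith
    · rw [ind_not hp, mul_zero]
      exact Finset.sum_nonneg (fun l _ => mul_nonneg le_rfl (R.P.ce_nonneg (fun v _ => ind_nonneg _) w))
  refine h2.trans ?_
  refine (Finset.sum_le_sum fun l hl => h1 l (Finset.mem_filter.1 hl).2).trans ?_
  exact Finset.sum_le_univ_sum_of_nonneg (fun l => R.P.Pr_nonneg _)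

theorem cl_count (h : R.Hyp) (n : ℕ) (J : Finset ι) {N : ℝ}
    (hN : ∑ l, ∑ t ∈ range n, R.P.Pr (fun w => R.f l (t + 1) w ≠ R.f l t w) ≤ N) :
    R.al J.card * ∑ t ∈ range n, R.P.Pr (R.cl t J) ≤ N := by
  rw [Finset.mul_sum]
  refine (Finset.sum_le_sum fun t _ => cl_pay h t J).trans ?_
  rw [Finset.sum_comm]
  exact (Finset.sum_le_sum fun l _ => sum_rec h n l).trans hN

omit [Fintype Λ] in
theorem cl_card (h : R.Hyp) {t : ℕ} {J : Finset ι} {w : Om} (hc : R.cl t J w) : J.card < R.k := by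
  unfold cl cq at hc
  obtain ⟨l, hl, _⟩ := hc
  exact lt_of_le_of_lt (Finset.card_le_card hl) (h.sk l)

/-- a closing of `J` and something stays young -/
theorem cl_utd (h : R.Hyp) (J : Finset ι) (hJ : J ≠ ∅) (t : ℕ) :
    R.P.Pr (fun w => R.cl t J w ∧ ¬ R.utd (t + 1) w) ≤
      Fintype.card Λ * R.al (J.card - 1) * R.P.Pr (R.cl t J) := by
  have hJ1 : 1 ≤ J.card := Finset.one_le_card.2 (Finset.nonempty_iff_ne_empty.2 hJ)
  have hfac : Fac (R.ZJ J (t + 1)) (fun w => ind (R.cl t J w)) := Fac.ind fun v w e => cl_iff e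
  have h1 : R.P.Pr (fun w => R.cl t J w ∧ ¬ R.utd (t + 1) w) =
      R.P.E (fun w => ind (R.cl t J w) * ind (¬ R.utd (t + 1) w)) := by
    unfold FP.Pr
    exact R.P.E_congr fun w _ => ind_and _ _
  have h2 : R.P.E (fun w => ind (R.cl t J w) * ind (¬ R.utd (t + 1) w)) ≤
      R.P.E (fun w => ind (R.cl t J w) * ∑ l, ind (R.y (t + 1) l w)) :=
    R.P.E_mono fun w _ => mul_le_mul_of_nonneg_left (ind_nutd (t + 1) w) (ind_nonneg _)
  rw [h1]
  refine h2.trans ?_
  rw [← R.P.E_mul_ce hfac]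
  unfold FP.Pr
  rw [← R.P.E_smul]
  refine R.P.E_mono fun w hw => ?_
  rw [R.P.ce_sum]
  by_cases hc : R.cl t J w
  · rw [ind_of hc, one_mul, mul_one]
    refine sum_le_card fun l => ?_
    have hk := cl_card h hc
    by_cases hl : J ⊆ R.sp l
    · -- recorded: nothing stays young
      rw [R.P.ce_zero_on hw (fun v _ hv => ind_not (fun hy => ?_))]
      · exact (h.al0 _ (by omega)).le
      · exact ((y_succ h t l v).1 hy).2 ⟨J, hl, (cl_iff hv).2 hc⟩
    · refine (y_ZJ h J (t + 1) l hw).trans ?_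
      refine al_mono h ?_ (by omega)
      have : (J ∩ R.sp l).card < J.card := by
        refine Finset.card_lt_card ⟨Finset.inter_subset_left, fun hh => hl ?_⟩
        exact hh.trans Finset.inter_subset_right
      omega
  · rw [ind_not hc, zero_mul, mul_zero]

/-- the closings of `J ≠ ∅` with something young, all levels -/
theorem cl_utd_sum (h : R.Hyp) (n : ℕ) (J : Finset ι) (hJ : J ≠ ∅) {N : ℝ} (hN0 : 0 ≤ N)
    (hN : ∑ l, ∑ t ∈ range n, R.P.Pr (fun w => R.f l (t + 1) w ≠ R.f l t w) ≤ N) (htop : 0 ≤ R.top) :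
    ∑ t ∈ range n, R.P.Pr (fun w => R.cl t J w ∧ ¬ R.utd (t + 1) w) ≤ Fintype.card Λ * R.top * N := by
  by_cases hk : J.card < R.k
  · have hJ1 : 1 ≤ J.card := Finset.one_le_card.2 (Finset.nonempty_iff_ne_empty.2 hJ)
    refine (Finset.sum_le_sum fun t _ => cl_utd h J hJ t).trans ?_
    rw [← Finset.mul_sum]
    set x := ∑ t ∈ range n, R.P.Pr (R.cl t J) with hx
    have hx0 : 0 ≤ x := Finset.sum_nonneg fun t _ => R.P.Pr_nonneg _
    have h1 : R.al J.card * x ≤ N := cl_count h n J hN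
    have h2 : R.al (J.card - 1) ≤ R.al J.card ^ 2 := al_sq h (by omega) hk
    have h3 := h.al0 J.card hk
    have h4 : R.al J.card ≤ R.top := al_top h hk
    have h5 : R.al (J.card - 1) * x ≤ R.top * N := by
      calc R.al (J.card - 1) * x ≤ R.al J.card ^ 2 * x := mul_le_mul_of_nonneg_right h2 hx0
        _ = R.al J.card * (R.al J.card * x) := by ring
        _ ≤ R.al J.card * N := mul_le_mul_of_nonneg_left h1 h3.le
        _ ≤ R.top * N := mul_le_mul_of_nonneg_right h4 hN0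
    calc (Fintype.card Λ : ℝ) * R.al (J.card - 1) * x = Fintype.card Λ * (R.al (J.card - 1) * x) := by ring
      _ ≤ Fintype.card Λ * (R.top * N) := mul_le_mul_of_nonneg_left h5 (Nat.cast_nonneg _)
      _ = _ := by ring
  · have h1 : ∀ t ∈ range n, R.P.Pr (fun w => R.cl t J w ∧ ¬ R.utd (t + 1) w) ≤ 0 := by
      intro t _
      unfold FP.Pr
      refine R.P.E_le_const fun w _ => ?_
      rw [ind_not (fun hh => hk (cl_card h hh.1))]
    refine (Finset.sum_nonpos h1).trans ?_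
    positivity

/-! ## (R3) -/

/-- number of levels at which the label is recorded -/
theorem rc_count (h : R.Hyp) (n : ℕ) (l : Λ) {N : ℝ}
    (hN : ∑ l, ∑ t ∈ range n, R.P.Pr (fun w => R.f l (t + 1) w ≠ R.f l t w) ≤ N) :
    R.al 0 * ∑ t ∈ range n, R.P.Pr (fun w => R.rc t l w) ≤ 2 ^ R.k * N := by
  have hk : 0 < R.k := lt_of_le_of_lt (Nat.zero_le _) (h.sk l)
  have h0 := h.al0 0 hk
  have hN0 : 0 ≤ N := le_trans (Finset.sum_nonneg fun l _ => Finset.sum_nonneg fun t _ => R.P.Pr_nonneg _) hN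
  have h1 : ∀ t, R.P.Pr (fun w => R.rc t l w) ≤ ∑ J ∈ (R.sp l).powerset, R.P.Pr (R.cl t J) := by
    intro t
    refine le_trans (R.P.Pr_mono (t := fun w => ∃ J ∈ (R.sp l).powerset, R.cl t J w) ?_) (R.P.Pr_ex_le _ _)
    rintro w _ ⟨J, hJ, hc⟩
    exact ⟨J, Finset.mem_powerset.2 hJ, hc⟩
  have h2 : ∑ t ∈ range n, R.P.Pr (fun w => R.rc t l w) ≤
      ∑ J ∈ (R.sp l).powerset, ∑ t ∈ range n, R.P.Pr (R.cl t J) := by
    rw [Finset.sum_comm]
    exact Finset.sum_le_sum fun t _ => h1 t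
  have h3 : ∀ J ∈ (R.sp l).powerset, R.al 0 * ∑ t ∈ range n, R.P.Pr (R.cl t J) ≤ N := by
    intro J hJ
    have hJk : J.card < R.k := lt_of_le_of_lt (Finset.card_le_card (Finset.mem_powerset.1 hJ)) (h.sk l)
    refine le_trans (mul_le_mul_of_nonneg_right (al_mono h (Nat.zero_le _) hJk) ?_) (cl_count h n J hN)
    exact Finset.sum_nonneg fun t _ => R.P.Pr_nonneg _
  calc R.al 0 * ∑ t ∈ range n, R.P.Pr (fun w => R.rc t l w)
      ≤ R.al 0 * ∑ J ∈ (R.sp l).powerset, ∑ t ∈ range n, R.P.Pr (R.cl t J) :=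
        mul_le_mul_of_nonneg_left h2 h0.le
    _ = ∑ J ∈ (R.sp l).powerset, R.al 0 * ∑ t ∈ range n, R.P.Pr (R.cl t J) := Finset.mul_sum _ _ _
    _ ≤ ∑ _J ∈ (R.sp l).powerset, N := Finset.sum_le_sum h3
    _ = 2 ^ (R.sp l).card * N := by
        rw [Finset.sum_const, Finset.card_powerset, nsmul_eq_mul]; push_cast; ring
    _ ≤ 2 ^ R.k * N := mul_le_mul_of_nonneg_right
        (pow_le_pow_right₀ (by norm_num) (h.sk l).le) hN0

/-- entropy of the records of `l`, given the path and the known vertices of `sp l` -/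
theorem rl_entropy [∀ l, Fintype (F l)] (h : R.Hyp) (n : ℕ) (l : Λ) {L N nl : ℝ} (hL : 0 ≤ L)
    (hF : (Fintype.card (F l) : ℝ) ≤ Real.exp L)
    (hl : ∑ t ∈ range n, R.P.Pr (fun w => R.f l (t + 1) w ≠ R.f l t w) ≤ nl)
    (hN : ∑ l, ∑ t ∈ range n, R.P.Pr (fun w => R.f l (t + 1) w ≠ R.f l t w) ≤ N) :
    ∑ t ∈ range n, R.P.Hc (R.Nl l (t + 1)) (fun w => (R.Nl l t w, R.ZJ (R.sp l) (t + 1) w)) ≤
      nl * (1 + Real.log (2 ^ R.k / R.al 0) + L) + N := by
  have hk : 0 < R.k := lt_of_le_of_lt (Nat.zero_le _) (h.sk l)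
  have hal := h.al0 0 hk
  have hal1 := h.al1 0 hk
  have hq : 0 < R.al 0 / 2 ^ R.k := by positivity
  have hlog : 0 ≤ Real.log (1 / (R.al 0 / 2 ^ R.k)) := by
    apply Real.log_nonneg
    rw [one_div_div, le_div_iff₀ hal, one_mul]
    exact hal1.trans (one_le_pow₀ (by norm_num))
  have h1 : ∀ t, R.P.Hc (R.Nl l (t + 1)) (fun w => (R.Nl l t w, R.ZJ (R.sp l) (t + 1) w)) ≤
      R.P.Pr (fun w => R.rc t l w ∧ R.b t l w) * (1 + Real.log (1 / (R.al 0 / 2 ^ R.k)) + L) +
        R.al 0 / 2 ^ R.k * R.P.Pr (fun w => R.rc t l w) := by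
    intro t
    refine R.P.Hc_record_le (R.Nl l t) (R.Nl l (t + 1)) (R.ZJ (R.sp l) (t + 1)) (R.f l (t + 1)) ?_
      (fun w hs => hs.1) ?_ hq hL hF
    · intro v w e
      exact rc_iff e
    · intro v w e1 e2 e3
      funext s
      unfold Nl
      rcases Nat.lt_succ_iff_lt_or_eq.1 s.isLt with hs | hs
      · exact congrFun e1 ⟨s.val, hs⟩
      · rw [hs]
        by_cases hv : R.rc t l v ∧ R.b t l v
        · have hw := e2.1 hv
          rw [rl, rl, if_pos hv.1, if_pos hw.1]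
          exact e3 hv
        · have hw := fun hh => hv (e2.2 hh)
          have a1 : R.rl l (t + 1) v = R.rl l t v := by
            by_contra hne; exact hv (rl_ne h hne)
          have a2 : R.rl l (t + 1) w = R.rl l t w := by
            by_contra hne; exact hw (rl_ne h hne)
          rw [a1, a2]
          exact congrFun e1 ⟨t, Nat.lt_succ_self t⟩
  refine le_trans (Finset.sum_le_sum (fun t _ => h1 t)) ?_
  rw [Finset.sum_add_distrib, ← Finset.sum_mul, ← Finset.mul_sum]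
  have h2 := (sum_rec h n l).trans hl
  have h3 := rc_count h n l hN
  have h4 : R.al 0 / 2 ^ R.k * ∑ t ∈ range n, R.P.Pr (fun w => R.rc t l w) ≤ N := by
    have e : R.al 0 / 2 ^ R.k * ∑ t ∈ range n, R.P.Pr (fun w => R.rc t l w) =
        (R.al 0 * ∑ t ∈ range n, R.P.Pr (fun w => R.rc t l w)) / 2 ^ R.k := by ring
    rw [e, div_le_iff₀ (by positivity)]
    linarith
  have h6 : (∑ t ∈ range n, R.P.Pr (fun w => R.rc t l w ∧ R.b t l w)) *
      (1 + Real.log (1 / (R.al 0 / 2 ^ R.k)) + L) ≤ nl * (1 + Real.log (1 / (R.al 0 / 2 ^ R.k)) + L) :=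
    mul_le_mul_of_nonneg_right h2 (by linarith)
  rw [one_div_div] at h6
  rw [one_div_div]
  linarith

end RD

end Pool.Agent.GMR
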