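import Pool.Agent.GMR.Rd
import Pool.Agent.M3.RdUp
import Pool.Agent.M3.Maj

/-!
# GMR.RdT: one view with the process, definitions (row G2B of table gm), helper21

The analogue of the definitions of `M3.RdD` for any number of known vertices: known label `e t`; `f l` = EXTENDED labels,
`fp l` = PLAIN labels (functions of the extended label and of `Z t`, they change only if the extended label changes, off
the errors `D0`); `K v t` for every PLAIN value `v = (e, fun l => fp l)`; `T t`, errors `D0`.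
`rp l` recorded plain label (same closings), `vt`, `vr` true and recorded plain value, `Xt t = K (vt t) t`,
`X t = K (vr t) t`.  `Dead r t`: dead points of Lemma D, `Dead' q t`: dead points of Lemma D'.
-/

set_option autoImplicit false
set_option linter.unusedSectionVars false

namespace Pool.Agent.GMR

open Finset Pool.Agent.PWZ Pool.Agent.M3

/-- one view with the process -/
structure RT (Om : Type*) [Fintype Om] (κ : ℕ → Type*) (ι Λ α β : Type*) (F : Λ → Type*) (E : Type*)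
    (F' : Λ → Type*) extends RD Om κ ι Λ α β F where
  e : ℕ → Om → E
  fp : ∀ l : Λ, ℕ → Om → F' l
  K : E × (∀ l : Λ, F' l) → ℕ → Om → ℝ
  T : ℕ → Om → ℝ
  D0 : ℕ → Om → Prop
  Lam : ℝ
  eta : ℝ

variable {Om : Type*} [Fintype Om] {κ : ℕ → Type*} {ι Λ α β : Type*} {F : Λ → Type*} {E : Type*}
  {F' : Λ → Type*}

namespace RT

noncomputable section

variable (S : RT Om κ ι Λ α β F E F')

open Classical in
/-- recorded plain label -/
def rp (l : Λ) : ℕ → Om → F' l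
  | 0, w => S.fp l 0 w
  | t + 1, w => if S.toRD.rc t l w then S.fp l (t + 1) w else rp l t w

/-- true value -/
def vt (t : ℕ) (w : Om) : E × (∀ l : Λ, F' l) := (S.e t w, fun l => S.fp l t w)

/-- recorded value -/
def vr (t : ℕ) (w : Om) : E × (∀ l : Λ, F' l) := (S.e t w, fun l => S.rp l t w)

/-- the true process -/
def Xt (t : ℕ) (w : Om) : ℝ := S.K (S.vt t w) t w

/-- the recorded process -/
def X (t : ℕ) (w : Om) : ℝ := S.K (S.vr t w) t w

/-- hypotheses -/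
structure HypT [DecidableEq ι] : Prop where
  hyp : S.toRD.Hyp
  fe : ∀ t, Fac (S.toRD.Z t) (S.e t)
  /-- the plain labels are the components of the extended labels with a number known from the node -/
  fpf : ∀ l t, Fac (fun w => (S.f l t w, S.toRD.Z t w)) (S.fp l t)
  /-- a plain label changes only if the extended label changes -/
  cf : ∀ l t w, S.P.p w ≠ 0 → ¬ S.D0 (t + 1) w → S.f l (t + 1) w = S.f l t w → S.fp l (t + 1) w = S.fp l t w
  Kf : ∀ v t, Fac (S.toRD.Z t) (S.K v t)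
  Ks : ∀ v t w, S.P.p w ≠ 0 → |S.K v t w| ≤ S.P.ce (S.toRD.Z t) (fun z => |S.K v (t + 1) z|) w
  Kb : ∀ v t w, S.P.p w ≠ 0 → |S.K v t w| ≤ S.Lam
  D0i : ∀ t w, S.P.p w ≠ 0 → S.D0 t w → S.D0 (t + 1) w
  TX : ∀ t w, S.P.p w ≠ 0 → ¬ S.D0 t w → |S.T t w - S.Xt t w| ≤ S.eta
  Lam0 : 0 ≤ S.Lam
  eta0 : 0 ≤ S.eta

/-- `(i)` a label changes and the process is large (`e`: only before the change) -/
def d1 (r : ℝ) (t : ℕ) (w : Om) : Prop :=
  (S.e (t + 1) w ≠ S.e t w ∧ r ≤ |S.T t w|) ∨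
    ((∃ l, S.f l (t + 1) w ≠ S.f l t w) ∧ (r ≤ |S.T t w| ∨ r ≤ |S.T (t + 1) w|))

/-- `(ii)` -/
def d2 (t : ℕ) (w : Om) : Prop := S.e (t + 1) w ≠ S.e t w ∧ ¬ S.toRD.utd (t + 1) w

/-- `(iii)` -/
def d3 (t : ℕ) (w : Om) : Prop := (∃ J : Finset ι, J ≠ ∅ ∧ S.toRD.cl t J w) ∧ ¬ S.toRD.utd (t + 1) w

/-- `(iv)` -/
def d4 (r : ℝ) (t : ℕ) (w : Om) : Prop :=
  ¬ S.toRD.utd (t + 1) w ∧ (2 * r ≤ |S.X (t + 1) w| ∨ 2 * r ≤ |S.T (t + 1) w|)

/-- `(iv')` -/
def d5 (r : ℝ) (t : ℕ) (w : Om) : Prop := ¬ S.toRD.utd t w ∧ 2 * r ≤ |S.K (S.vr t w) (t + 1) w|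

/-- the dead points of Lemma D -/
def Dead (r : ℝ) (t : ℕ) (w : Om) : Prop :=
  S.D0 t w ∨ ∃ s < t, S.d1 r s w ∨ S.d2 s w ∨ S.d3 s w ∨ S.d4 r s w ∨ S.d5 r s w

/-- `(v)` -/
def d6 (q : ℝ) (t : ℕ) (w : Om) : Prop :=
  (¬ S.toRD.utd (t + 1) w ∧ q ≤ |S.X (t + 1) w|) ∨ (¬ S.toRD.utd t w ∧ q ≤ |S.K (S.vr t w) (t + 1) w|)

/-- the dead points of Lemma D' -/
def Dead' (q : ℝ) (t : ℕ) (w : Om) : Prop :=
  S.D0 t w ∨ ∃ s < t, S.d2 s w ∨ S.d3 s w ∨ S.d6 q s w

variable {S}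

theorem dead_inc [DecidableEq ι] (h : S.HypT) (r : ℝ) (t : ℕ) (w : Om) (hw : S.P.p w ≠ 0) (hd : S.Dead r t w) :
    S.Dead r (t + 1) w := by
  rcases hd with hd | ⟨s, hs, hd⟩
  · exact Or.inl (h.D0i t w hw hd)
  · exact Or.inr ⟨s, by omega, hd⟩

theorem dead'_inc [DecidableEq ι] (h : S.HypT) (q : ℝ) (t : ℕ) (w : Om) (hw : S.P.p w ≠ 0) (hd : S.Dead' q t w) :
    S.Dead' q (t + 1) w := by
  rcases hd with hd | ⟨s, hs, hd⟩
  · exact Or.inl (h.D0i t w hw hd)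
  · exact Or.inr ⟨s, by omega, hd⟩

end

end RT

end Pool.Agent.GMR
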